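import Pool.Agent.X155.MackTop

/-!
# MP_44d3b9_gt (Q1): no metrizable precompact Mackey group topology on `ℤ` without proper open
subgroups (indeed, no metrizable precompact Mackey group topology on `ℤ` at all)
-/

set_option autoImplicit false

open Filter Topology

namespace Pool.Agent.Results.MP_44d3b9_gt.NoPrecompactMackey

open Pool.Agent.X155.Mack

/-- `t` is Mackey: it is locally quasi-convex and finer than (`≤` in Mathlib's order of topologies)
every Hausdorff locally quasi-convex group topology on `ℤ` with the same continuous characters. -/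
def IsMackey (t : TopologicalSpace ℤ) : Prop :=
  IsLocallyQuasiConvex t ∧ ∀ t' : TopologicalSpace ℤ, IsGroupTop t' → @T2Space ℤ t' →
    IsLocallyQuasiConvex t' → IsCompatible t t' → t ≤ t'

/-- `t` has no proper open subgroup: no subgroup `nℤ` with `|n| ≠ 1` is open. -/
def NoProperOpenSubgroup (t : TopologicalSpace ℤ) : Prop :=
  ∀ n : ℤ, |n| ≠ 1 → ¬ @IsOpen ℤ t (AddSubgroup.zmultiples n : Set ℤ)

/-- (1) There is no group topology on `ℤ` which is metrizable, precompact and Mackey and has no
proper open subgroup. (2) In fact no metrizable precompact group topology on `ℤ` is Mackey. -/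
theorem result :
    (¬ ∃ t : TopologicalSpace ℤ, IsGroupTop t ∧ @TopologicalSpace.MetrizableSpace ℤ t ∧
      IsPrecompact t ∧ IsMackey t ∧ NoProperOpenSubgroup t) ∧
    (∀ t : TopologicalSpace ℤ, IsGroupTop t → @TopologicalSpace.MetrizableSpace ℤ t →
      IsPrecompact t → ¬ IsMackey t) := by
  have key : ∀ t : TopologicalSpace ℤ, IsGroupTop t → @TopologicalSpace.MetrizableSpace ℤ t →
      IsPrecompact t → ¬ IsMackey t := by
    rintro t ht hm hp ⟨hq, hM⟩
    obtain ⟨t', h1, hT, h2, h3, h4⟩ := exists_finer ht hm hp hq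
    exact not_le_of_gt h4 (hM t' h1 hT h2 h3)
  refine ⟨?_, key⟩
  rintro ⟨t, ht, hm, hp, hM, -⟩
  exact key t ht hm hp hM

end Pool.Agent.Results.MP_44d3b9_gt.NoPrecompactMackey
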